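import Pool.Agent.Helper54.TD.FinalT

/-!
# A positive proportion of the twists of a superelliptic Jacobian has trivial Selmer group

Let `F` be a finite field, `ℓ` an odd prime dividing `#F - 1`, and `C` a curve
`y ^ ℓ = ∏ i, (x - e i) ^ a i` over `F(t)` with arbitrary bad reduction, such that the differences
`e i - e j` satisfy no relation modulo `ℓ`-th powers which is invariant under twisting.  For the
proportion `∏ (1 + ℓ ^ (-i))⁻¹ - ε` (product over `i ≥ 1`) of all squarefree polynomials `D` of large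
degree which are coprime to the discriminant, the `(1 - ζ)`-Selmer group of the Jacobian of the twist
`C_D : y ^ ℓ = ∏ i, (x - D * e i) ^ a i` is generated by the images of the torsion points
`(D * e i, 0)`.
-/

set_option autoImplicit false

namespace Pool.Agent.Results.MP_1d384c_nt.DensityOfTwists

open Polynomial Finset Filter Topology Pool.Agent.Helper47.BSD

/-- The branch points `D * e i` of the twist `C_D`, as elements of `F(t)`. -/
noncomputable def twist {F : Type} [Field F] {r : ℕ} (e : Fin r → F[X]) (D : F[X]) (i : Fin r) :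
    RatFunc F :=
  algebraMap F[X] (RatFunc F) (D * e i)

/-- The squarefree monic polynomials of degree `n` which are coprime to all `e i - e j`. -/
def admissible {F : Type} [Field F] {r : ℕ} (e : Fin r → F[X]) (n : ℕ) : Set F[X] :=
  {D | D.Monic ∧ D.natDegree = n ∧ Squarefree D ∧ ∀ i j, i ≠ j → IsCoprime D (e i - e j)}

/-- The image of the torsion point `(E i, 0)` of the curve `y ^ ℓ = ∏ i, (x - E i) ^ a i` under the
`x - T` map: its components are `E i - E j` for `j ≠ i`, and the `i`-th component is determined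
modulo `ℓ`-th powers by the relation `∏ j, d j ^ a j = 1`. -/
noncomputable def torsionTuple (ℓ : ℕ) {r : ℕ} (a : Fin r → ℕ) {k : Type} [Field k] (E : Fin r → k)
    (i j : Fin r) : k :=
  if j = i then ((∏ m ∈ univ.erase i, (E i - E m) ^ a m) ^ ((a i : ZMod ℓ)⁻¹).val)⁻¹
    else E i - E j

theorem result (F : Type) [Field F] [Finite F] (ℓ : ℕ) (hℓ : ℓ.Prime) (hℓ2 : ℓ ≠ 2)
    (hq : ℓ ∣ Nat.card F - 1) (r : ℕ) (hr : 2 ≤ r) (a : Fin r → ℕ) (ha : ∀ i, ¬ ℓ ∣ a i)
    (hs : ¬ ℓ ∣ ∑ i, a i) (e : Fin r → F[X]) (he : Function.Injective e)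
    (hind : ∀ m : {p : Fin r × Fin r // p.1 < p.2} → ℕ, ℓ ∣ ∑ p, m p →
      (∃ f : F[X], ∏ p, (e p.1.1 - e p.1.2) ^ m p = f ^ ℓ) → ∀ p, ℓ ∣ m p)
    (ε : ℝ) (hε : 0 < ε) :
    ∀ᶠ n : ℕ in atTop, ((∏' i : ℕ, (1 + ((ℓ : ℝ) ^ (i + 1))⁻¹)⁻¹) - ε) *
        ((admissible e n).ncard : ℝ) ≤
      (({D ∈ admissible e n | ∀ d ∈ selmerSet ℓ a (twist e D),
        ∃ (c : Fin r → ℕ) (x : Fin r → RatFunc F), ∀ j, (d j : RatFunc F) =
          (∏ i, torsionTuple ℓ a (twist e D) i j ^ c i) * x j ^ ℓ}).ncard : ℝ) :=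
  Pool.Agent.Helper54.PT.final_oddT hℓ hℓ2 hq a ha hs e he (by simpa using hr) hind ε hε

end Pool.Agent.Results.MP_1d384c_nt.DensityOfTwists
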