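import Pool.Agent.Helper54.TD.FinalT

/-!
# A positive proportion of the quadratic twists of a hyperelliptic Jacobian has rank zero

Let `F` be a finite field with `4 ∣ #F - 1` and `C` a curve `y ^ 2 = ∏ i, (x - e i)` over `F(t)` of
odd degree at least three, with arbitrary bad reduction, such that no product of an even number of
distinct differences `e i - e j` is a square, and such that some irreducible polynomial divides
exactly one difference.  For the proportion `(1 / 2) ∏ (1 - 2 ^ (-(2 i + 1))) - ε` (product over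
`i ≥ 0`) of all squarefree polynomials `D` of large degree which are coprime to the discriminant, the
`2`-Selmer group of the Jacobian of the quadratic twist `C_D : y ^ 2 = ∏ i, (x - D * e i)` is
generated by the images of the torsion points `(D * e i, 0)`.
-/

set_option autoImplicit false

namespace Pool.Agent.Helper54.Old.QuadraticTwists

open Polynomial Finset Filter Topology Pool.Agent.Helper47.BSD

/-- The branch points `D * e i` of the quadratic twist `C_D`, as elements of `F(t)`. -/
noncomputable def twist {F : Type} [Field F] {r : ℕ} (e : Fin r → F[X]) (D : F[X]) (i : Fin r) :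
    RatFunc F :=
  algebraMap F[X] (RatFunc F) (D * e i)

/-- The squarefree monic polynomials of degree `n` which are coprime to all `e i - e j`. -/
def admissible {F : Type} [Field F] {r : ℕ} (e : Fin r → F[X]) (n : ℕ) : Set F[X] :=
  {D | D.Monic ∧ D.natDegree = n ∧ Squarefree D ∧ ∀ i j, i ≠ j → IsCoprime D (e i - e j)}

/-- The image of the torsion point `(E i, 0)` of the curve `y ^ 2 = ∏ i, (x - E i)` under the
`x - T` map: its components are `E i - E j` for `j ≠ i`, and the `i`-th component is the product of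
the others. -/
def torsionTuple {r : ℕ} {k : Type} [Field k] (E : Fin r → k) (i j : Fin r) : k :=
  if j = i then ∏ m ∈ univ.erase i, (E i - E m) else E i - E j

theorem result (F : Type) [Field F] [Finite F] (hq : 4 ∣ Nat.card F - 1) (r : ℕ) (hr : 3 ≤ r)
    (hodd : Odd r) (e : Fin r → F[X]) (he : Function.Injective e)
    (hind : ∀ S : Finset (Fin r × Fin r), (∀ p ∈ S, p.1 < p.2) → Even S.card →
      IsSquare (∏ p ∈ S, (e p.1 - e p.2)) → S = ∅)
    (hnode : ∃ (P : F[X]) (i j : Fin r), Irreducible P ∧ i < j ∧ P ∣ e i - e j ∧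
      ∀ m n, m < n → P ∣ e m - e n → m = i ∧ n = j)
    (ε : ℝ) (hε : 0 < ε) :
    ∀ᶠ n : ℕ in atTop, (1 / 2 * (∏' i : ℕ, (1 - ((2 : ℝ) ^ (2 * i + 1))⁻¹)) - ε) *
        ((admissible e n).ncard : ℝ) ≤
      (({D ∈ admissible e n | ∀ d ∈ selmerSet 2 (fun _ => 1) (twist e D),
        ∃ (c : Fin r → ℕ) (x : Fin r → RatFunc F), ∀ j, (d j : RatFunc F) =
          (∏ i, torsionTuple (twist e D) i j ^ c i) * x j ^ 2}).ncard : ℝ) := by
  have hodd' : ¬ 2 ∣ ∑ _i : Fin r, 1 := by
    rw [sum_const, card_univ, Fintype.card_fin, smul_eq_mul, mul_one, ← even_iff_two_dvd]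
    exact Nat.not_even_iff_odd.2 hodd
  have hne : ∀ i j, i ≠ j → e i - e j ≠ 0 := fun i j h => sub_ne_zero.2 fun h' => h (he h')
  have hind' : ∀ m : {p : Fin r × Fin r // p.1 < p.2} → ℕ, 2 ∣ ∑ p, m p →
      (∃ f : F[X], ∏ p, (e p.1.1 - e p.1.2) ^ m p = f ^ 2) → ∀ p, 2 ∣ m p := by
    rintro m hm ⟨f, hf⟩ p₀
    set S : Finset {p : Fin r × Fin r // p.1 < p.2} := univ.filter fun p => m p % 2 = 1 with hSd
    have hcard : Even (S.map (Function.Embedding.subtype _)).card := by
      have h0 : ∑ p, m p % 2 = S.card := by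
        rw [hSd, card_filter]
        refine sum_congr rfl fun p _ => ?_
        split_ifs with h
        · exact h
        · omega
      rw [Nat.dvd_iff_mod_eq_zero, Finset.sum_nat_mod, h0] at hm
      rwa [card_map, even_iff_two_dvd, Nat.dvd_iff_mod_eq_zero]
    have hprod : (∏ p ∈ S, (e p.1.1 - e p.1.2)) * (∏ p, (e p.1.1 - e p.1.2) ^ (m p / 2)) ^ 2 =
        f ^ 2 := by
      rw [← hf, ← prod_pow, hSd, prod_filter, ← prod_mul_distrib]
      refine prod_congr rfl fun p _ => ?_
      split_ifs with h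
      · rw [← pow_mul, ← pow_succ']
        congr 1
        omega
      · rw [one_mul, ← pow_mul]
        congr 1
        omega
    have hy : (∏ p : {p : Fin r × Fin r // p.1 < p.2}, (e p.1.1 - e p.1.2) ^ (m p / 2)) ≠ 0 :=
      prod_ne_zero_iff.2 fun p _ => pow_ne_zero _ (hne _ _ p.2.ne)
    have hdvd : (∏ p : {p : Fin r × Fin r // p.1 < p.2}, (e p.1.1 - e p.1.2) ^ (m p / 2)) ∣ f := by
      refine (IsIntegrallyClosed.pow_dvd_pow_iff two_ne_zero).1 ?_
      rw [← hprod]
      exact dvd_mul_left _ _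
    obtain ⟨g, rfl⟩ := hdvd
    have hsq : IsSquare (∏ p ∈ S.map (Function.Embedding.subtype _), (e p.1 - e p.2)) := by
      rw [prod_map]
      refine ⟨g, mul_right_cancel₀ (pow_ne_zero 2 hy) ?_⟩
      refine hprod.trans ?_
      ring
    have hS := hind _ (fun p hp => by
      obtain ⟨q, _, rfl⟩ := mem_map.1 hp
      exact q.2) hcard hsq
    rw [map_eq_empty] at hS
    have h1 : p₀ ∉ S := by
      rw [hS]
      exact notMem_empty _
    rw [hSd, mem_filter] at h1
    have h2 : ¬ m p₀ % 2 = 1 := fun h => h1 ⟨mem_univ _, h⟩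
    omega
  have hnode' : ∃ (P : F[X]) (i j : Fin r), Irreducible P ∧ i ≠ j ∧ P ∣ e i - e j ∧
      ∀ m n, m ≠ n → s(m, n) ≠ s(i, j) → ¬ P ∣ e m - e n := by
    obtain ⟨P, i, j, hP, hij, hd, h⟩ := hnode
    refine ⟨P, i, j, hP, hij.ne, hd, fun m n hmn hs' hd' => ?_⟩
    rcases lt_or_gt_of_ne hmn with h1 | h1
    · obtain ⟨rfl, rfl⟩ := h m n h1 hd'
      exact hs' rfl
    · obtain ⟨rfl, rfl⟩ := h n m h1 ((dvd_sub_comm).1 hd')
      exact hs' Sym2.eq_swap
  filter_upwards [Pool.Agent.Helper54.PT.final_evenT hq (fun _ : Fin r => 1) (by simpa using hr)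
    (fun _ => by decide) hodd' e he hind' hnode' ε hε] with n hn
  refine hn.trans (Nat.cast_le.2 (Set.ncard_le_ncard ?_ ?_))
  · rintro D ⟨hD, h⟩
    refine ⟨hD, fun d hd => ?_⟩
    obtain ⟨c, x, hx⟩ := h d hd
    set E : Fin r → RatFunc F := fun i => algebraMap F[X] (RatFunc F) (D * e i) with hE
    have hEne : ∀ i m, m ∈ univ.erase i → E i - E m ≠ 0 := by
      intro i m hm
      have him : i ≠ m := (ne_of_mem_erase hm).symm
      have hD0 : D ≠ 0 := hD.1.ne_zero
      rw [hE]
      simp only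
      rw [← map_sub, ← mul_sub, Ne, map_eq_zero_iff _ (RatFunc.algebraMap_injective F)]
      exact mul_ne_zero hD0 (hne i m him)
    refine ⟨c, fun j => x j * ((∏ m ∈ univ.erase j, (E j - E m)) ^ c j)⁻¹, fun j => ?_⟩
    have hP : ∏ m ∈ univ.erase j, (E j - E m) ≠ 0 := prod_ne_zero_iff.2 (hEne j)
    rw [hx j, ← mul_prod_erase univ _ (mem_univ j), ← mul_prod_erase univ
      (fun i => torsionTuple (twist e D) i j ^ c i) (mem_univ j)]
    have h1 : ∏ i ∈ univ.erase j, Pool.Agent.Helper54.PT.tt 2 (fun _ : Fin r => 1) E i j ^ c i =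
        ∏ i ∈ univ.erase j, torsionTuple (twist e D) i j ^ c i := by
      refine prod_congr rfl fun i hi => ?_
      have hij : j ≠ i := (ne_of_mem_erase hi).symm
      rw [Pool.Agent.Helper54.PT.tt, torsionTuple, if_neg hij, if_neg hij]
      rfl
    have h2 : Pool.Agent.Helper54.PT.tt 2 (fun _ : Fin r => 1) E j j =
        (∏ m ∈ univ.erase j, (E j - E m))⁻¹ := by
      have h3 : Pool.Agent.Helper54.PT.inva 2 1 = 1 := by
        rw [Pool.Agent.Helper54.PT.inva, Nat.cast_one, inv_one]
        rfl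
      rw [Pool.Agent.Helper54.PT.tt, if_pos rfl, h3, pow_one]
      simp only [pow_one]
    have h4 : torsionTuple (twist e D) j j = ∏ m ∈ univ.erase j, (E j - E m) := by
      rw [torsionTuple, if_pos rfl]
      rfl
    rw [h1, h2, h4, inv_pow, mul_pow, inv_pow]
    have h5 := pow_ne_zero (c j) hP
    generalize (∏ m ∈ univ.erase j, (E j - E m)) ^ c j = P at h5
    field_simp
  · refine (Pool.Agent.Helper54.PT.finite_natDegree_le F n).subset fun D hD => ?_
    exact hD.1.2.1.le

end Pool.Agent.Helper54.Old.QuadraticTwists
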