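import Pool.Agent.Helper9.CRT.Proof

/-!
There is a (well-founded) model of ZF with a set `X` such that `CRT(X)` fails and `RT²_n(X)` holds
for all natural numbers `n`.
-/

namespace Pool.Agent.Results.MP_5f5b92_lc.StrictForAllN

open Pool.Agent.Helper9.CRT

theorem result : ∃ (M : Type 1) (_ : Membership M M), Pool.Agent.Helper73.Sym.IsZF M ∧
    WellFounded (fun x y : M => x ∈ y) ∧
    ∃ X : M, ¬ CanonicalRamsey X ∧ ∀ n : M, IsNat n → RT2 n X :=
  main

end Pool.Agent.Results.MP_5f5b92_lc.StrictForAllN
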